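import Pool.Agent.Helper23.SP.Basic

set_option autoImplicit false

/-!
# SP-F: existence of a relation-free map by counting
-/

namespace Pool.Agent.Helper26.SP

open Finset
open Pool.Agent.Helper23.SP

/-- decoding of a coefficient vector -/
def dec {U s : ℕ} (N : ℕ) (f : Fin s → Fin U × Fin (2 * N + 1)) (u : Fin U) : ℤ :=
  ∑ i, if (f i).1 = u then (((f i).2 : ℕ) : ℤ) - N else 0

theorem exists_dec {U s N : ℕ} (Γ : Fin U → ℤ) (hs : (supp Γ).card ≤ s)
    (hN : ∀ u, |Γ u| ≤ N) (u0 : Fin U) :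
    ∃ f : Fin s → Fin U × Fin (2 * N + 1), dec N f = Γ := by
  classical
  set S := supp Γ with hS
  set c := S.card with hc
  have hb : ∀ u, (Γ u + N).toNat < 2 * N + 1 := fun u => by
    have := abs_le.1 (hN u)
    omega
  let el : Fin c → S := fun j => S.equivFin.symm j
  let f : Fin s → Fin U × Fin (2 * N + 1) := fun i =>
    if h : i.val < c then ((el ⟨i.val, h⟩ : Fin U), ⟨(Γ (el ⟨i.val, h⟩ : Fin U) + N).toNat, hb _⟩)
    else (u0, ⟨N, by omega⟩)
  refine ⟨f, ?_⟩
  funext u
  unfold dec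
  have h1 : ∀ i : Fin s, ¬ i.val < c →
      (if (f i).1 = u then (((f i).2 : ℕ) : ℤ) - N else 0) = 0 := by
    intro i hi
    simp only [f, dif_neg hi]
    split_ifs <;> simp
  have h2 : ∀ (i : Fin s) (hi : i.val < c),
      (if (f i).1 = u then (((f i).2 : ℕ) : ℤ) - N else 0) =
      if ((el ⟨i.val, hi⟩ : S) : Fin U) = u then Γ u else 0 := by
    intro i hi
    simp only [f, dif_pos hi]
    split_ifs with h
    · rw [h]
      have := abs_le.1 (hN u)
      rw [Int.toNat_of_nonneg (by omega)]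
      ring
    · rfl
  by_cases hu : Γ u = 0
  · rw [hu]
    refine Finset.sum_eq_zero fun i _ => ?_
    by_cases hi : i.val < c
    · rw [h2 i hi, hu, ite_self]
    · exact h1 i hi
  · have huS : u ∈ S := by rw [hS, mem_supp]; exact hu
    let j := S.equivFin ⟨u, huS⟩
    have hj : j.val < c := j.2
    have hjs : j.val < s := lt_of_lt_of_le hj hs
    rw [Finset.sum_eq_single (⟨j.val, hjs⟩ : Fin s)]
    · rw [h2 ⟨j.val, hjs⟩ hj, if_pos]
      simp [el, j]
    · intro i _ hij
      by_cases hi : i.val < c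
      · rw [h2 i hi, if_neg]
        intro h
        apply hij
        have e1 : el ⟨i.val, hi⟩ = ⟨u, huS⟩ := Subtype.ext h
        have e2 : (⟨i.val, hi⟩ : Fin c) = j := by
          rw [← Equiv.apply_symm_apply S.equivFin (⟨i.val, hi⟩ : Fin c)]
          exact congrArg S.equivFin e1
        have e3 : i.val = j.val := congrArg Fin.val e2
        exact Fin.ext e3
      · exact h1 i hi
    · intro h
      exact absurd (Finset.mem_univ _) h

theorem card_bad {U M : ℕ} (Γ : Fin U → ℤ) (u0 : Fin U) (h0 : Γ u0 ≠ 0) :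
    (univ.filter (fun mu : Fin U → Fin M => ∑ u, Γ u * ((mu u : ℕ) : ℤ) = 0)).card ≤
      M ^ (U - 1) := by
  classical
  have hcard : Fintype.card ({u : Fin U // u ≠ u0} → Fin M) = M ^ (U - 1) := by
    rw [Fintype.card_fun, Fintype.card_fin]
    congr 1
    rw [Fintype.card_subtype_compl, Fintype.card_fin]
    simp
  rw [← hcard, ← Finset.card_univ]
  refine Finset.card_le_card_of_injOn (fun mu v => mu v.1) (fun _ _ => Finset.mem_coe.2
    (Finset.mem_univ _)) ?_
  intro mu hmu mu' hmu' heq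
  have hmu1 : ∑ u, Γ u * ((mu u : ℕ) : ℤ) = 0 := by simpa using hmu
  have hmu2 : ∑ u, Γ u * ((mu' u : ℕ) : ℤ) = 0 := by simpa using hmu'
  have hoff : ∀ u, u ≠ u0 → mu u = mu' u := fun u hu => congrFun heq ⟨u, hu⟩
  have hdiff : ∑ u, Γ u * (((mu u : ℕ) : ℤ) - ((mu' u : ℕ) : ℤ)) = 0 := by
    simp only [mul_sub, Finset.sum_sub_distrib]
    rw [hmu1, hmu2, sub_zero]
  rw [Finset.sum_eq_single u0] at hdiff
  · have h3 : ((mu u0 : ℕ) : ℤ) - ((mu' u0 : ℕ) : ℤ) = 0 := by
      rcases mul_eq_zero.1 hdiff with h | h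
      · exact absurd h h0
      · exact h
    funext u
    by_cases hu : u = u0
    · rw [hu]
      apply Fin.ext
      omega
    · exact hoff u hu
  · intro u _ hu
    rw [hoff u hu]
    simp
  · intro h
    exact absurd (Finset.mem_univ _) h

/-- SP-F. -/
theorem exists_mu (U s N : ℕ) : ∃ mu : Fin U → ℕ,
    (∀ u, mu u ≤ (U * (2 * N + 1)) ^ s) ∧ Free mu s N := by
  classical
  by_contra hcon
  set M := (U * (2 * N + 1)) ^ s + 1 with hM
  have hall : ∀ mu : Fin U → Fin M, ∃ f : Fin s → Fin U × Fin (2 * N + 1),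
      (∃ u, dec N f u ≠ 0) ∧ ∑ u, dec N f u * ((mu u : ℕ) : ℤ) = 0 := by
    intro mu
    by_contra hno
    apply hcon
    refine ⟨fun u => (mu u : ℕ), fun u => ?_, ?_⟩
    · have h := (mu u).2
      change ((mu u : ℕ)) ≤ (U * (2 * N + 1)) ^ s
      omega
    · intro Γ hs hN hsum u
      by_contra hu
      obtain ⟨f, hf⟩ := exists_dec Γ hs hN u
      exact hno ⟨f, ⟨u, by rw [hf]; exact hu⟩, by rw [hf]; exact hsum⟩
  have hUpos : 0 < U := by
    by_contra hU
    have hU0 : U = 0 := by omega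
    subst hU0
    obtain ⟨f, ⟨u, _⟩, _⟩ := hall (fun u => u.elim0)
    exact u.elim0
  have hcover : (univ : Finset (Fin U → Fin M)) ⊆
      (univ : Finset (Fin s → Fin U × Fin (2 * N + 1))).biUnion
        (fun f => if ∃ u, dec N f u ≠ 0 then
          univ.filter (fun mu : Fin U → Fin M => ∑ u, dec N f u * ((mu u : ℕ) : ℤ) = 0)
          else ∅) := by
    intro mu _
    obtain ⟨f, hf1, hf2⟩ := hall mu
    rw [Finset.mem_biUnion]
    refine ⟨f, Finset.mem_univ _, ?_⟩
    rw [if_pos hf1]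
    simpa using hf2
  have h1 := Finset.card_le_card hcover
  have h2 : ((univ : Finset (Fin s → Fin U × Fin (2 * N + 1))).biUnion
        (fun f => if ∃ u, dec N f u ≠ 0 then
          univ.filter (fun mu : Fin U → Fin M => ∑ u, dec N f u * ((mu u : ℕ) : ℤ) = 0)
          else ∅)).card ≤ (U * (2 * N + 1)) ^ s * M ^ (U - 1) := by
    refine (Finset.card_biUnion_le_card_mul _ _ (M ^ (U - 1)) ?_).trans (le_of_eq ?_)
    · intro f _
      split_ifs with h
      · obtain ⟨u0, hu0⟩ := h
        exact card_bad _ u0 hu0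
      · simp
    · rw [Finset.card_univ, Fintype.card_fun, Fintype.card_prod, Fintype.card_fin,
        Fintype.card_fin, Fintype.card_fin]
  rw [Finset.card_univ, Fintype.card_fun, Fintype.card_fin, Fintype.card_fin] at h1
  have h3 : M ^ U = M * M ^ (U - 1) := by
    conv_lhs => rw [← Nat.sub_add_cancel hUpos, pow_succ']
  have h4 : 0 < M ^ (U - 1) := Nat.pow_pos (by omega)
  have h5 : M * M ^ (U - 1) ≤ (U * (2 * N + 1)) ^ s * M ^ (U - 1) := by
    rw [← h3]
    exact h1.trans h2
  have h6 := Nat.le_of_mul_le_mul_right h5 h4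
  omega

end Pool.Agent.Helper26.SP
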